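import Mathlib

set_option autoImplicit false

namespace Pool.Agent.Results.MP_719c39_co.Sep

open Finset

section
variable {A B : Type} [DecidableEq A] [DecidableEq B] (s : B → A → Bool)

/-- lines of `L` that separate two points of `X` -/
def cut (L : Finset B) (X : Finset A) : Finset B :=
  L.filter (fun l => ∃ a ∈ X, ∃ b ∈ X, s l a ≠ s l b)

def Hall (L : Finset B) (P : Finset A) : Prop :=
  ∀ X ⊆ P, X.card ≤ (cut s L X).card + 1

def Tight (L : Finset B) (X : Finset A) : Prop := X.card = (cut s L X).card + 1

lemma cut_mono (L : Finset B) {X Y : Finset A} (h : X ⊆ Y) : cut s L X ⊆ cut s L Y := by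
  intro l hl
  simp only [cut, mem_filter] at hl ⊢
  obtain ⟨h1, a, ha, b, hb, hab⟩ := hl
  exact ⟨h1, a, h ha, b, h hb, hab⟩

lemma cut_union (L : Finset B) {X Y : Finset A} {x : A} (hx : x ∈ X) (hy : x ∈ Y) :
    cut s L (X ∪ Y) ⊆ cut s L X ∪ cut s L Y := by
  intro l hl
  simp only [cut, mem_filter, mem_union] at hl ⊢
  obtain ⟨h1, a, ha, b, hb, hab⟩ := hl
  have : ∃ c, (c ∈ X ∨ c ∈ Y) ∧ s l c ≠ s l x := by
    by_cases h : s l a = s l x
    · exact ⟨b, hb, fun h' => hab (h.trans h'.symm)⟩
    · exact ⟨a, ha, h⟩
  obtain ⟨c, hc | hc, hcx⟩ := this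
  · exact Or.inl ⟨h1, c, hc, x, hx, hcx⟩
  · exact Or.inr ⟨h1, c, hc, x, hy, hcx⟩

lemma tight_union {L : Finset B} {P X Y : Finset A} (H : Hall s L P) (hX : X ⊆ P) (hY : Y ⊆ P)
    (tX : Tight s L X) (tY : Tight s L Y) {x : A} (hx : x ∈ X) (hy : x ∈ Y) :
    Tight s L (X ∪ Y) := by
  have h1 := card_le_card (cut_union s L hx hy)
  have h2 : (cut s L (X ∩ Y)).card ≤ (cut s L X ∩ cut s L Y).card :=
    card_le_card (subset_inter (cut_mono s L inter_subset_left) (cut_mono s L inter_subset_right))
  have h3 := card_union_add_card_inter (cut s L X) (cut s L Y)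
  have h4 := card_union_add_card_inter X Y
  have h5 := H (X ∩ Y) (inter_subset_left.trans hX)
  have h6 := H (X ∪ Y) (union_subset hX hY)
  unfold Tight at *
  omega

open Classical in
/-- lines cutting some tight subset of `Q` -/
noncomputable def blocked (L : Finset B) (Q : Finset A) : Finset B :=
  L.filter (fun l => ∃ X ⊆ Q, Tight s L X ∧ l ∈ cut s L X)

lemma blocked_card {L : Finset B} {P : Finset A} (H : Hall s L P) (Q : Finset A) :
    Q ⊆ P → Q.Nonempty → (blocked s L Q).card + 1 ≤ Q.card := by
  classical
  induction Q using Finset.strongInduction with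
  | H Q ih =>
    intro hQ ⟨x, hx⟩
    have hne : (Q.powerset.filter (fun X => Tight s L X ∧ x ∈ X)).Nonempty := by
      refine ⟨{x}, mem_filter.mpr ⟨mem_powerset.mpr (singleton_subset_iff.mpr hx), ?_, by simp⟩⟩
      simp [Tight, cut]
    obtain ⟨M, hM, hmax⟩ := exists_max_image _ Finset.card hne
    obtain ⟨hMQ, tM, hxM⟩ := mem_filter.mp hM
    have hMQ := mem_powerset.mp hMQ
    have hsub : blocked s L Q ⊆ cut s L M ∪ blocked s L (Q \ M) := by
      intro l hl
      simp only [blocked, mem_filter] at hl
      obtain ⟨h1, X, hX, tX, hlX⟩ := hl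
      by_cases hd : Disjoint X M
      · refine mem_union_right _ ?_
        simp only [blocked, mem_filter]
        exact ⟨h1, X, subset_sdiff.mpr ⟨hX, hd⟩, tX, hlX⟩
      · obtain ⟨y, hy1, hy2⟩ := not_disjoint_iff.mp hd
        have tU := tight_union s H (hX.trans hQ) (hMQ.trans hQ) tX tM hy1 hy2
        have hle := hmax (X ∪ M) (mem_filter.mpr
          ⟨mem_powerset.mpr (union_subset hX hMQ), tU, mem_union_right _ hxM⟩)
        have : M = X ∪ M := eq_of_subset_of_card_le subset_union_right hle
        refine mem_union_left _ (cut_mono s L ?_ hlX)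
        rw [this]; exact subset_union_left
    have h1 := (card_le_card hsub).trans (card_union_le _ _)
    have h2 := card_sdiff_add_card_eq_card hMQ
    have h3 : (blocked s L (Q \ M)).card ≤ (Q \ M).card := by
      rcases (Q \ M).eq_empty_or_nonempty with h | h
      · rw [h]
        have : blocked s L (∅ : Finset A) = ∅ := by
          simp [blocked, cut]
        simp [this]
      · have := ih (Q \ M) (sdiff_ssubset hMQ ⟨x, hxM⟩) (sdiff_subset.trans hQ) h
        omega
    unfold Tight at tM
    omega

lemma hall_erase {L : Finset B} {P Q : Finset A} (H : Hall s L P) (hQ : Q ⊆ P) {l : B}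
    (hl : l ∈ L) (hb : l ∉ blocked s L Q) : Hall s (L.erase l) Q := by
  classical
  intro X hX
  have h1 := H X (hX.trans hQ)
  have e : cut s (L.erase l) X = (cut s L X).erase l := by
    simp only [cut, filter_erase]
  rw [e]
  by_cases hc : l ∈ cut s L X
  · have nt : ¬ Tight s L X := by
      intro t
      apply hb
      simp only [blocked, mem_filter]
      exact ⟨hl, X, hX, t, hc⟩
    rw [card_erase_of_mem hc]
    have := card_pos.mpr ⟨l, hc⟩
    unfold Tight at nt
    omega
  · rw [erase_eq_of_notMem hc]; exact h1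

lemma path (n : ℕ) : ∀ (L : Finset B) (P : Finset A) (v : A), P.card = n + 1 → L.card = n + 1 →
    v ∈ P → Hall s L P → ∃ (p : ℕ → A) (l : ℕ → B), p 0 = v ∧
      (∀ i ≤ n, p i ∈ P ∧ l i ∈ L) ∧ (∀ i ≤ n, ∀ j ≤ n, p i = p j → i = j) ∧
      (∀ i ≤ n, ∀ j ≤ n, l i = l j → i = j) ∧ ∀ i < n, s (l i) (p i) ≠ s (l i) (p (i + 1)) := by
  classical
  induction n with
  | zero =>
    intro L P v hP hL hv _
    obtain ⟨l0, hl0⟩ := card_pos.mp (show 0 < L.card by omega)
    exact ⟨fun _ => v, fun _ => l0, rfl, fun _ _ => ⟨hv, hl0⟩, by omega, by omega, by omega⟩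
  | succ n ih =>
    intro L P v hP hL hv H
    have hQc : (P.erase v).card = n + 1 := by rw [card_erase_of_mem hv]; omega
    have h1 := blocked_card s H (P.erase v) (erase_subset _ _) (card_pos.mp (by omega))
    have h2 := H P (Subset.refl _)
    obtain ⟨m, hm1, hm2⟩ := exists_mem_notMem_of_card_lt_card
      (show (blocked s L (P.erase v)).card < (cut s L P).card by omega)
    obtain ⟨hmL, a, ha, b, hb, hab⟩ := mem_filter.mp hm1
    have : ∃ w ∈ P, s m v ≠ s m w := by
      by_cases h : s m v = s m a
      · exact ⟨b, hb, fun h' => hab (h.symm.trans h')⟩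
      · exact ⟨a, ha, h⟩
    obtain ⟨w, hw, hvw⟩ := this
    have hwQ : w ∈ P.erase v := mem_erase.mpr ⟨fun h => hvw (by rw [h]), hw⟩
    obtain ⟨p, l, p0, hmem, pinj, linj, hsep⟩ := ih (L.erase m) (P.erase v) w hQc
      (by rw [card_erase_of_mem hmL]; omega) hwQ (hall_erase s H (erase_subset _ _) hmL hm2)
    refine ⟨fun i => Nat.casesOn i v p, fun i => Nat.casesOn i m l, rfl, ?_, ?_, ?_, ?_⟩
    · intro i hi
      cases i with
      | zero => exact ⟨hv, hmL⟩
      | succ i =>
        exact ⟨mem_of_mem_erase (hmem i (by omega)).1, mem_of_mem_erase (hmem i (by omega)).2⟩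
    · intro i hi j hj h
      cases i with
      | zero =>
        cases j with
        | zero => rfl
        | succ j => exact absurd h.symm (mem_erase.mp (hmem j (by omega)).1).1
      | succ i =>
        cases j with
        | zero => exact absurd h (mem_erase.mp (hmem i (by omega)).1).1
        | succ j => rw [pinj i (by omega) j (by omega) h]
    · intro i hi j hj h
      cases i with
      | zero =>
        cases j with
        | zero => rfl
        | succ j => exact absurd h.symm (mem_erase.mp (hmem j (by omega)).2).1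
      | succ i =>
        cases j with
        | zero => exact absurd h (mem_erase.mp (hmem i (by omega)).2).1
        | succ j => rw [linj i (by omega) j (by omega) h]
    · intro i hi
      cases i with
      | zero => show s m v ≠ s m (p 0); rw [p0]; exact hvw
      | succ i => exact hsep i (by omega)

end

/-- signed value of the directed line `a x + b y = c`, given as `(a, b, c)`, at a point -/
def val (l : ℝ × ℝ × ℝ) (z : ℝ × ℝ) : ℝ := l.1 * z.1 + l.2.1 * z.2 - l.2.2

open Classical in
theorem result (n : ℕ) (p : Fin n → ℝ × ℝ) (l : Fin n → ℝ × ℝ × ℝ)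
    (_hp : Function.Injective p) (_hl : ∀ j, (l j).1 ≠ 0 ∨ (l j).2.1 ≠ 0)
    (hgen : ∀ i j, val (l j) (p i) ≠ 0)
    (hull : ∀ X : Finset (Fin n), X.card - 1 ≤
      (univ.filter (fun j => ∃ z ∈ convexHull ℝ (p '' (X : Set (Fin n))), val (l j) z = 0)).card) :
    ∃ σ τ : Equiv.Perm (Fin n), ∀ (i : ℕ) (h : i + 1 < n),
      val (l (τ ⟨i, by omega⟩)) (p (σ ⟨i, by omega⟩)) *
        val (l (τ ⟨i, by omega⟩)) (p (σ ⟨i + 1, h⟩)) < 0 := by
  cases n with
  | zero => exact ⟨1, 1, fun i h => absurd h (by omega)⟩
  | succ n =>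
    let s : Fin (n + 1) → Fin (n + 1) → Bool := fun j i => decide (0 < val (l j) (p i))
    have H : Hall s univ univ := by
      intro X _
      have h1 := hull X
      have h2 : (univ.filter (fun j => ∃ z ∈ convexHull ℝ (p '' (X : Set (Fin (n + 1)))),
          val (l j) z = 0)) ⊆ cut s univ X := by
        intro j hj
        obtain ⟨-, z, hz, hz0⟩ := mem_filter.mp hj
        simp only [cut, mem_filter]
        refine ⟨mem_univ _, ?_⟩
        by_contra hcon
        push Not at hcon
        have hlin : IsLinearMap ℝ (fun z : ℝ × ℝ => (l j).1 * z.1 + (l j).2.1 * z.2) :=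
          ⟨fun x y => by simp; ring, fun c x => by simp; ring⟩
        by_cases hpos : ∃ a ∈ X, 0 < val (l j) (p a)
        · obtain ⟨a, ha, hpa⟩ := hpos
          have : z ∈ {z : ℝ × ℝ | (l j).2.2 < (l j).1 * z.1 + (l j).2.1 * z.2} := by
            refine convexHull_min ?_ (convex_halfSpace_gt hlin _) hz
            rintro _ ⟨b, hb, rfl⟩
            have := hcon a ha b hb
            simp only [s, hpa, decide_true] at this
            have := of_decide_eq_true this.symm
            simp only [val] at this
            show (l j).2.2 < _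
            linarith
          have : (l j).2.2 < (l j).1 * z.1 + (l j).2.1 * z.2 := this
          simp only [val] at hz0
          linarith
        · push Not at hpos
          have : z ∈ {z : ℝ × ℝ | (l j).1 * z.1 + (l j).2.1 * z.2 < (l j).2.2} := by
            refine convexHull_min ?_ (convex_halfSpace_lt hlin _) hz
            rintro _ ⟨b, hb, rfl⟩
            have := lt_of_le_of_ne (hpos b hb) (hgen b j)
            simp only [val] at this
            show _ < (l j).2.2
            linarith
          have : (l j).1 * z.1 + (l j).2.1 * z.2 < (l j).2.2 := this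
          simp only [val] at hz0
          linarith
      have := card_le_card h2
      omega
    obtain ⟨q, m, -, -, qinj, minj, hsep⟩ := path s n univ univ 0 (by simp) (by simp)
      (mem_univ _) H
    have b1 : Function.Bijective (fun i : Fin (n + 1) => q i) :=
      Finite.injective_iff_bijective.mp (fun i j h => Fin.ext
        (qinj i (by omega) j (by omega) h))
    have b2 : Function.Bijective (fun i : Fin (n + 1) => m i) :=
      Finite.injective_iff_bijective.mp (fun i j h => Fin.ext
        (minj i (by omega) j (by omega) h))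
    refine ⟨Equiv.ofBijective _ b1, Equiv.ofBijective _ b2, fun i h => ?_⟩
    have := hsep i (by omega)
    simp only [Equiv.ofBijective_apply]
    simp only [s, ne_eq, decide_eq_decide] at this
    have g1 := hgen (q i) (m i)
    have g2 := hgen (q (i + 1)) (m i)
    rcases lt_or_gt_of_ne g1 with a | a <;> rcases lt_or_gt_of_ne g2 with b | b
    · exact absurd ⟨fun h => absurd h (not_lt.mpr a.le), fun h => absurd h (not_lt.mpr b.le)⟩ this
    · exact mul_neg_of_neg_of_pos a b
    · exact mul_neg_of_pos_of_neg a b
    · exact absurd ⟨fun _ => b, fun _ => a⟩ this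

end Pool.Agent.Results.MP_719c39_co.Sep
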